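import Pool.Agent.W2helper48.JV.CycG

/-!
# The joint law of the traces of all powers of Frobenius for almost all cyclic covers of prime degree (disconnected Sato-Tate groups)

Let `l` be an odd prime and `X` the cyclic cover `y ^ l = F(x_0, …, x_n)` of `P ^ n` over `Q`, `n` odd, branched along a smooth hypersurface `F = 0` of
a degree `δ` divisible by `l` (for `n = 1` a superelliptic curve). The cohomology of `X` which does not come from `P ^ n` is `H ^ n(X)`, of odd
weight `n`. The `l`-th roots of unity act on it, but not over `Q`: the Sato-Tate group over `Q` is not connected, its group of components is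
`(Z / l)ˣ` if the monodromy is as large as possible, and a prime `p ≠ l` of good reduction lies over the component of the class of `p` modulo `l`.
For such a prime let `t_p(j)` be the trace of the `j`-th power of the normalised Frobenius: the number of the points of `X` over the field
with `q = p ^ j` elements is `1 + q + … + q ^ n - q ^ (n / 2) t_p(j)`.

It is proved, unconditionally, that for almost all `F` the means over the primes, in any interval and with arbitrary bounded weights (for instance
the indicator function of a residue class), of all products `t_p(j_1) … t_p(j_r)` with `j_1 + … + j_r ≤ (δ + 1) / 2` are the joint moments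
of independent normal variables, whose parameters depend on the class of `p` modulo `l` only: the variance of the variable with index `j` is
`j (l - 1)` if `p ^ j` is `1` modulo `l` and `0` otherwise; its mean is `-(l - 1)` if `j` is even and `p ^ (j / 2)` is `-1` modulo `l`, and
`0` otherwise. The error is `Y ^ (1 / 2 + ε / 2)` for the sum over the primes in any interval below `Y`, and the primes go up to a power
of the height of the family. So the number `t_p(j)` follows a different law on each component of the Sato-Tate group: for instance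
`t_p(j) = 0` if `p ^ j` is not `1` modulo `l`.
-/

set_option autoImplicit false

namespace Pool.Agent.Results.MP_4c4ce6_nt.CyclicCovers

open Finset MeasureTheory ProbabilityTheory MvPolynomial
open Pool.Agent.Y722.HS (Mon form IsSmooth)
open scoped NNReal

/-- The first nonzero coordinate is `1`; every point of the projective space is represented by exactly one such vector. -/
def Normalized {R : Type} [Zero R] [One R] {n : ℕ} (v : Fin (n + 1) → R) : Prop := ∃ i, v i = 1 ∧ ∀ k < i, v k = 0

/-- The number of the points of the cyclic cover `y ^ l = F(x)` of `P ^ n` over the field with `p ^ j` elements (`F` a form of a degree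
divisible by `l`). -/
noncomputable def points {n : ℕ} (l : ℕ) (F : MvPolynomial (Fin (n + 1)) ℤ) (p j : ℕ) : ℕ :=
  open scoped Classical in
  if h : p.Prime then
    haveI : Fact p.Prime := ⟨h⟩
    Nat.card {x : (Fin (n + 1) → GaloisField p j) × GaloisField p j // Normalized x.1 ∧ x.2 ^ l = aeval x.1 F}
  else 0

/-- The trace of the `j`-th power of the normalised Frobenius at `p` on the primitive cohomology of the cyclic cover, `n` odd: the
number `t` with `points = 1 + q + … + q ^ n - q ^ (n / 2) t`, `q = p ^ j`. -/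
noncomputable def trace {n : ℕ} (l : ℕ) (F : MvPolynomial (Fin (n + 1)) ℤ) (p j : ℕ) : ℝ :=
  (∑ i ∈ range (n + 1), ((p : ℝ) ^ j) ^ i - points l F p j) / Real.sqrt p ^ (j * n)

/-- The prime `p` is not `l` and the hypersurface `F = 0` is smooth over the algebraic closure of the field with `p` elements. -/
def Good {n : ℕ} (l : ℕ) (F : MvPolynomial (Fin (n + 1)) ℤ) (p : ℕ) : Prop :=
  p ≠ l ∧ ∀ _ : Fact p.Prime, IsSmooth (map (algebraMap (ZMod p) (AlgebraicClosure (ZMod p))) (map (Int.castRingHom (ZMod p)) F))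

open scoped Classical in
/-- The mean of the variable with the index `d`: `-(l - 1)` if `d` is even and `p ^ (d / 2)` is `-1` modulo `l`, and `0` otherwise. -/
noncomputable def mean (l p d : ℕ) : ℝ := -(if Even d ∧ l ∣ p ^ (d / 2) + 1 then ((l : ℝ) - 1) else 0)

open scoped Classical in
/-- The variance of the variable with the index `d`: `d (l - 1)` if `p ^ d` is `1` modulo `l`, and `0` otherwise. -/
noncomputable def variance (l p d : ℕ) : ℝ≥0 := if l ∣ p ^ d - 1 then (d : ℝ≥0) * ((l - 1 : ℕ) : ℝ≥0) else 0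

/-- The joint moment of `x_(j_1), …, x_(j_r)`, where `x_0, …, x_D` are independent normal variables with the above means and variances. -/
noncomputable def jointMoment (l p : ℕ) {D r : ℕ} (j : Fin r → Fin (D + 1)) : ℝ :=
  ∫ x : Fin (D + 1) → ℝ, ∏ i, x (j i) ∂(Measure.pi fun d : Fin (D + 1) => gaussianReal (mean l p d) (variance l p d))

open Classical in
/-- The sum over the primes `p` of good reduction with `Y < p ≤ Y'`. -/
noncomputable def primeSum {n : ℕ} (l : ℕ) (F : MvPolynomial (Fin (n + 1)) ℤ) (Y Y' : ℕ) (g : ℕ → ℝ) : ℝ :=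
  ∑ p ∈ (Ioc Y Y').filter fun p => p.Prime ∧ Good l F p, g p

/-- All mixed moments of the traces of total weight at most `(δ + 1) / 2` are the expected ones, over all intervals of primes
between `X₀` and `R`, with the weights `w`. -/
def Typical {n : ℕ} (l δ : ℕ) (ε C : ℝ) (w : ℕ → ℝ) (X₀ : ℕ) (R : ℝ) (F : MvPolynomial (Fin (n + 1)) ℤ) : Prop :=
  ∀ Y Y' : ℕ, Y ≤ Y' → X₀ ≤ Y' → (Y' : ℝ) ≤ R → ∀ (r : ℕ) (j : Fin r → Fin (δ + 2)), (∀ i, 1 ≤ (j i : ℕ)) → 2 * ∑ i, (j i : ℕ) ≤ δ + 1 →
    |primeSum l F Y Y' fun p => w p * (∏ i, trace l F p (j i) - jointMoment l p j)| ≤ C * (Y' : ℝ) ^ (1 / 2 + ε / 2)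

/-- The integer vectors `t` with `N i ≤ t i < N i + L i`. -/
noncomputable def box {κ : Type} [Fintype κ] [DecidableEq κ] (N : κ → ℤ) (L : κ → ℕ) : Finset (κ → ℤ) :=
  Fintype.piFinset fun i => Ico (N i) (N i + L i)

open W2helper48.JV in
lemma jointMoment_eq (l p : ℕ) [hp : Fact p.Prime] {D r : ℕ} (j : Fin r → Fin (D + 1)) (hj : ∀ i, 1 ≤ (j i : ℕ)) :
    jointMoment l p j = (-1) ^ r * tgt D (VC l (p : ZMod l)) (MC l (p : ZMod l)) (fun _ : Fin r => ()) fun i => (j i : ℕ) := by
  rw [tgt_unit D _ _ j hj (-1) (Or.inr rfl)]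
  unfold jointMoment
  have h1 : ∀ d : Fin (D + 1), gaussianReal (mean l p d) (variance l p d) =
      gaussianReal (-1 * MC l (p : ZMod l) (d : ℕ) ()) (((d : ℕ) : ℝ≥0) * VC l (p : ZMod l) (d : ℕ) ()) := by
    intro d
    have hm : mean l p d = -1 * MC l (p : ZMod l) (d : ℕ) () := by
      unfold mean MC
      have h2 : (Even (d : ℕ) ∧ l ∣ p ^ ((d : ℕ) / 2) + 1) ↔ (Even (d : ℕ) ∧ (p : ZMod l) ^ ((d : ℕ) / 2) = -1) :=
        and_congr_right fun _ => (neg_iff l p _).symm
      by_cases h : Even (d : ℕ) ∧ l ∣ p ^ ((d : ℕ) / 2) + 1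
      · rw [if_pos h, if_pos (h2.1 h), neg_one_mul]
      · rw [if_neg h, if_neg fun h' => h (h2.2 h'), neg_one_mul]
    have hv : variance l p d = ((d : ℕ) : ℝ≥0) * VC l (p : ZMod l) (d : ℕ) () := by
      unfold variance VC
      by_cases h : l ∣ p ^ (d : ℕ) - 1
      · rw [if_pos h, if_pos ((one_iff l p _).2 h)]
      · rw [if_neg h, if_neg fun h' => h ((one_iff l p _).1 h'), mul_zero]
    rw [hm, hv]
  simp only [h1]

/-- **The joint law of the traces of all powers of Frobenius for almost all cyclic covers of prime degree.** -/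
theorem result (l : ℕ) (hl : l.Prime) (hl2 : l ≠ 2) (n δ : ℕ) (hn : Odd n) (hδ : 1 ≤ δ) (_ : l ∣ δ) (ε : ℝ) (hε : 0 < ε) (hε1 : ε ≤ 1) :
    ∃ κ₀ : ℝ, 0 < κ₀ ∧ ∃ C : ℝ, ∀ w : ℕ → ℝ, (∀ p, |w p| ≤ 1) → ∀ (N : Mon n δ → ℤ) (L : Mon n δ → ℕ) (T : ℝ), 0 < T → (∀ i, T ≤ L i) →
      ∀ X₀ : ℕ, 1 ≤ X₀ →
        ({t ∈ box N L | ¬ Typical l δ ε C w X₀ (T ^ κ₀) (form t)} : Set (Mon n δ → ℤ)).ncard ≤ C * (X₀ : ℝ) ^ (-(ε / 2)) * ∏ i, (L i : ℝ) := by
  classical
  obtain ⟨κ₀, hκ₀, C, hC, h⟩ := W2helper48.JV.final_C l hl hl2 n δ hn.pos hδ (-1) (by norm_num) ε hε hε1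
  refine ⟨κ₀, hκ₀, C, fun w hw N L T hT hTL X₀ hX₀ => ?_⟩
  obtain ⟨E, hE1, hE2, hE3⟩ := h w hw N L T hT hTL X₀ hX₀
  have hsub : ({t ∈ box N L | ¬ Typical l δ ε C w X₀ (T ^ κ₀) (form t)} : Set (Mon n δ → ℤ)) ⊆ ↑E := by
    rintro t ⟨ht, hnt⟩
    by_contra hno
    refine hnt fun Y Y' hYY hY hYT r j hj hjD => ?_
    have h1 := hE3 t ht hno Y Y' hYY hY hYT r (fun i => (j i : ℕ)) (fun i => mem_Icc.2 ⟨hj i, by have := (j i).2; omega⟩) hjD
    have h3 : (Ioc Y Y').filter (fun p => p.Prime ∧ Good l (form t) p) = W2helper48.JT.WW (W2helper48.JV.BadC l n δ) Y Y' t := by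
      ext p
      unfold W2helper48.JT.WW Q285HS.IV
      rw [mem_filter, mem_filter, mem_filter, and_assoc]
      refine and_congr_right fun _ => and_congr_right fun _ => ?_
      show Good l (form t) p ↔ ¬ (l = p ∨ ¬ _)
      rw [not_or, not_not]
      unfold Good
      refine and_congr (by rw [ne_comm]) (forall_congr' fun hF => ?_)
      have h1 := W2helper48.JT.form_cast t p
      have h2 : map (algebraMap (ZMod p) (AlgebraicClosure (ZMod p))) (map (Int.castRingHom (ZMod p)) (form t)) =
          map (algebraMap (ZMod p) (AlgebraicClosure (ZMod p))) (form fun m => (t m : ZMod p)) := congrArg _ h1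
      exact iff_of_eq (congrArg IsSmooth h2)
    have h4 : primeSum l (form t) Y Y' (fun p => w p * (∏ i, trace l (form t) p (j i) - jointMoment l p j)) =
        ∑ p ∈ W2helper48.JT.WW (W2helper48.JV.BadC l n δ) Y Y' t,
          w p * (∏ i, (-1 * W2helper48.JV.trC l n δ (j i) p (fun y => (t y : ZMod p))) -
            (-1) ^ r * W2helper48.JV.tgt (δ + 1) (W2helper48.JV.VC l (p : ZMod l)) (W2helper48.JV.MC l (p : ZMod l)) (fun _ : Fin r => ()) fun i => (j i : ℕ)) := by
      unfold primeSum
      rw [h3]
      refine sum_congr rfl fun p hp => ?_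
      have hpW : p.Prime ∧ p ≠ l := by
        rw [← h3] at hp
        exact ⟨(mem_filter.1 hp).2.1, (mem_filter.1 hp).2.2.1⟩
      have hpr := hpW.1
      have : Fact p.Prime := ⟨hpr⟩
      have h6 : ∀ i, trace l (form t) p (j i) = -1 * W2helper48.JV.trC l n δ (j i) p (fun y => (t y : ZMod p)) := by
        intro i
        have hji : (j i : ℕ) ≠ 0 := by
          have := hj i
          omega
        have h5 : (points l (form t) p (j i) : ℝ) = ∑ k ∈ range (n + 1), ((p : ℝ) ^ (j i : ℕ)) ^ k +
            ∑ v ∈ (j i : ℕ).divisors.biUnion fun d => W2helper48.JT.MM n p d, W2helper48.JV.rc l (j i : ℕ) (W2helper48.JT.vl (fun ν => (t ν : ZMod p)) v) := by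
          unfold points
          rw [dif_pos hpr]
          exact W2helper48.JV.card_C l (j i : ℕ) hji t
        rw [W2helper48.JV.trC_eq l n δ _ p hpW.2.symm]
        unfold trace W2helper48.JV.TC W2helper48.JT.sD
        rw [h5]
        ring
      show w p * (∏ i, trace l (form t) p (j i) - jointMoment l p j) = _
      rw [jointMoment_eq l p j hj, prod_congr rfl fun i _ => h6 i]
    rw [h4]
    exact h1
  have h1 := Set.ncard_le_ncard hsub (Finset.finite_toSet _)
  rw [Set.ncard_coe_finset] at h1
  exact le_trans (by exact_mod_cast h1) hE2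

end Pool.Agent.Results.MP_4c4ce6_nt.CyclicCovers
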