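import Pool.Agent.W2helper48.JW.FinE
import Pool.Agent.W2helper48.JV.CycG

/-!
# The Sato-Tate law of almost all hyperelliptic Jacobians for the class functions of weight at most `2 g + 3`

Let `C` be the hyperelliptic curve `y ^ 2 = F(x, z)` of genus `g ≥ 1` over `Q`, `F` a binary form of degree `2 g + 2` with integer coefficients.
For a prime `p` of good reduction let `A_p` be the normalised Frobenius on `H ^ 1(C)`, a conjugacy class of `USp(2 g)`: for all `j` the number of
the points of `C` over the field with `q = p ^ j` elements is `q + 1 - √q tr(A_p ^ j)`. The Sato-Tate conjecture says for a general `C` that the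
classes `A_p` are equidistributed in `USp(2 g)`, that is, that the means over the primes of all products `tr(A_p ^ j_1) … tr(A_p ^ j_r)` are
the integrals `E_j` of `tr(A ^ j_1) … tr(A ^ j_r)` for the Haar measure.

It is proved, unconditionally, that for almost all `F` the means of all products with `j_1 + … + j_r ≤ 2 g + 3` have these values, with
an error `Y ^ (1 / 2 + ε / 2)` for the sum over the primes in any interval below `Y`, with arbitrary bounded weights, for all primes up to a power
of the height of the family. Here `E_j` is the moment of independent normal variables `x_d` of the variances `d`, with the means `-1` for even `d`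
and `0` for odd `d`, from which `(-1) ^ r` is subtracted if `j_1 + … + j_r = 2 g + 2`. (In the range `j_1 + … + j_r ≤ 2 g + 1` these are
the moments of the Haar measure by Diaconis and Shahshahani, Hughes and Rudnick; `2 g + 2` is the first weight at which the moments of `USp(2 g)`
are not those of normal variables.) For `g = 1` this gives `E(t ^ 2) = 1`, `E(t ^ 4) = 2`, for `g = 2` all joint moments of the coefficients
`a_1` and `a_2` of the normalised Euler factor of weight at most `7`.

The range is the largest one in which the values of a form at the closed points of the line which occur are independent. The proof uses the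
Weil bound (proved in the starting files) for the curves which are not `y ^ 2 = c G ^ 2`; the forms `c G ^ 2` give the term `(-1) ^ r`.
-/

set_option autoImplicit false

namespace Pool.Agent.Results.MP_4c4ce6_nt.HyperellipticJacobians

open Finset MeasureTheory ProbabilityTheory MvPolynomial
open Pool.Agent.Y722.HS (Mon form IsSmooth)
open scoped NNReal

/-- The first nonzero coordinate is `1`; every point of the projective line is represented by exactly one such vector. -/
def Normalized {R : Type} [Zero R] [One R] (v : Fin 2 → R) : Prop := ∃ i, v i = 1 ∧ ∀ k < i, v k = 0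

/-- The number of the points of the curve `y ^ 2 = F(x, z)` over the field with `p ^ j` elements (`F` a binary form of even degree). -/
noncomputable def points (F : MvPolynomial (Fin 2) ℤ) (p j : ℕ) : ℕ :=
  open scoped Classical in
  if h : p.Prime then
    haveI : Fact p.Prime := ⟨h⟩
    Nat.card {x : (Fin 2 → GaloisField p j) × GaloisField p j // Normalized x.1 ∧ x.2 ^ 2 = aeval x.1 F}
  else 0

/-- The trace of the `j`-th power of the normalised Frobenius at `p`: the number `t` with `points = q + 1 - √q t`, `q = p ^ j`. -/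
noncomputable def trace (F : MvPolynomial (Fin 2) ℤ) (p j : ℕ) : ℝ := ((p : ℝ) ^ j + 1 - points F p j) / Real.sqrt p ^ j

/-- The prime `p` is odd and `F = 0` is smooth (`F` has no multiple zero) over the algebraic closure of the field with `p` elements. -/
def Good (F : MvPolynomial (Fin 2) ℤ) (p : ℕ) : Prop :=
  p ≠ 2 ∧ ∀ _ : Fact p.Prime, IsSmooth (map (algebraMap (ZMod p) (AlgebraicClosure (ZMod p))) (map (Int.castRingHom (ZMod p)) F))

/-- The joint moment of `x_(j_1), …, x_(j_r)`, where `x_0, …, x_D` are independent normal variables, `x_d` with the variance `d` and the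
mean `-1` for even `d`, `0` for odd `d`; `(-1) ^ r` is subtracted if the total weight is `2 g + 2`. -/
noncomputable def jointMoment (g : ℕ) {D r : ℕ} (j : Fin r → Fin (D + 1)) : ℝ :=
  ∫ x : Fin (D + 1) → ℝ, ∏ i, x (j i) ∂(Measure.pi fun d : Fin (D + 1) => gaussianReal (-(if Even (d : ℕ) then 1 else 0)) ((d : ℕ) : ℝ≥0)) -
    if ∑ i, (j i : ℕ) = 2 * g + 2 then (-1) ^ r else 0

open Classical in
/-- The sum over the primes `p` of good reduction with `Y < p ≤ Y'`. -/
noncomputable def primeSum (F : MvPolynomial (Fin 2) ℤ) (Y Y' : ℕ) (f : ℕ → ℝ) : ℝ :=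
  ∑ p ∈ (Ioc Y Y').filter fun p => p.Prime ∧ Good F p, f p

/-- All mixed moments of the traces of total weight at most `2 g + 3` are the expected ones, over all intervals of primes
between `X₀` and `R`, with the weights `w`. -/
def Typical (g : ℕ) (ε C : ℝ) (w : ℕ → ℝ) (X₀ : ℕ) (R : ℝ) (F : MvPolynomial (Fin 2) ℤ) : Prop :=
  ∀ Y Y' : ℕ, Y ≤ Y' → X₀ ≤ Y' → (Y' : ℝ) ≤ R → ∀ (r : ℕ) (j : Fin r → Fin (2 * g + 4)), (∀ i, 1 ≤ (j i : ℕ)) → ∑ i, (j i : ℕ) ≤ 2 * g + 3 →
    |primeSum F Y Y' fun p => w p * (∏ i, trace F p (j i) - jointMoment g j)| ≤ C * (Y' : ℝ) ^ (1 / 2 + ε / 2)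

/-- The integer vectors `t` with `N i ≤ t i < N i + L i`. -/
noncomputable def box {κ : Type} [Fintype κ] [DecidableEq κ] (N : κ → ℤ) (L : κ → ℕ) : Finset (κ → ℤ) :=
  Fintype.piFinset fun i => Ico (N i) (N i + L i)

open W2helper48.JV W2helper48.JW in
lemma jointMoment_eq (g : ℕ) {r : ℕ} (j : Fin r → Fin (2 * g + 4)) (hj : ∀ i, 1 ≤ (j i : ℕ)) :
    jointMoment g j = (-1) ^ r * tgE (g + 1) fun i => (j i : ℕ) := by
  unfold jointMoment tgE
  rw [mul_sub]
  have h1 := tgt_unit (2 * (g + 1) + 1) VD MD j hj (-1) (Or.inr rfl)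
  rw [h1]
  congr 1
  · have h2 : ∀ d : Fin (2 * g + 3 + 1), gaussianReal (-(if Even (d : ℕ) then 1 else 0)) ((d : ℕ) : ℝ≥0) =
        gaussianReal (-1 * MD (d : ℕ) ()) (((d : ℕ) : ℝ≥0) * VD (d : ℕ) ()) := by
      intro d
      unfold MD VD W2helper48.JT.eta
      rw [neg_one_mul, mul_one]
    simp only [h2]
    rfl
  · have h3 : 2 * (g + 1) = 2 * g + 2 := by ring
    rw [h3]
    split_ifs <;> ring

/-- **The joint law of the traces of all powers of Frobenius for almost all hyperelliptic curves, in the weights at most `2 g + 3`.** -/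
theorem result (g : ℕ) (hg : 1 ≤ g) (ε : ℝ) (hε : 0 < ε) (hε1 : ε ≤ 1) :
    ∃ κ₀ : ℝ, 0 < κ₀ ∧ ∃ C : ℝ, ∀ w : ℕ → ℝ, (∀ p, |w p| ≤ 1) → ∀ (N : Mon 1 (2 * (g + 1)) → ℤ) (L : Mon 1 (2 * (g + 1)) → ℕ) (T : ℝ), 0 < T →
      (∀ i, T ≤ L i) → ∀ X₀ : ℕ, 1 ≤ X₀ →
        ({t ∈ box N L | ¬ Typical g ε C w X₀ (T ^ κ₀) (form t)} : Set (Mon 1 (2 * (g + 1)) → ℤ)).ncard ≤
          C * (X₀ : ℝ) ^ (-(ε / 2)) * ∏ i, (L i : ℝ) := by
  classical
  obtain ⟨κ₀, hκ₀, C, hC, h⟩ := W2helper48.JW.final_E (g + 1) (by omega) (-1) (by norm_num) ε hε hε1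
  refine ⟨κ₀, hκ₀, C, fun w hw N L T hT hTL X₀ hX₀ => ?_⟩
  obtain ⟨E, hE1, hE2, hE3⟩ := h w hw N L T hT hTL X₀ hX₀
  have hsub : ({t ∈ box N L | ¬ Typical g ε C w X₀ (T ^ κ₀) (form t)} : Set (Mon 1 (2 * (g + 1)) → ℤ)) ⊆ ↑E := by
    rintro t ⟨ht, hnt⟩
    by_contra hno
    refine hnt fun Y Y' hYY hY hYT r j hj hjD => ?_
    have h1 := hE3 t ht hno Y Y' hYY hY hYT r (fun i => (j i : ℕ)) (fun i => mem_Icc.2 ⟨hj i, by have := (j i).2; omega⟩) (by omega)
    have h3 : (Ioc Y Y').filter (fun p => p.Prime ∧ Good (form t) p) = W2helper48.JT.WW (W2helper48.JT.BadD 1 (2 * (g + 1))) Y Y' t := by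
      ext p
      unfold W2helper48.JT.WW Q285HS.IV
      rw [mem_filter, mem_filter, mem_filter, and_assoc]
      refine and_congr_right fun _ => and_congr_right fun _ => ?_
      show Good (form t) p ↔ ¬ (p = 2 ∨ ¬ _)
      rw [not_or, not_not]
      unfold Good
      refine and_congr_right fun _ => forall_congr' fun hF => ?_
      have h1 := W2helper48.JT.form_cast t p
      have h2 : map (algebraMap (ZMod p) (AlgebraicClosure (ZMod p))) (map (Int.castRingHom (ZMod p)) (form t)) =
          map (algebraMap (ZMod p) (AlgebraicClosure (ZMod p))) (form fun m => (t m : ZMod p)) := congrArg _ h1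
      exact iff_of_eq (congrArg IsSmooth h2)
    have h4 : primeSum (form t) Y Y' (fun p => w p * (∏ i, trace (form t) p (j i) - jointMoment g j)) =
        ∑ p ∈ W2helper48.JT.WW (W2helper48.JT.BadD 1 (2 * (g + 1))) Y Y' t,
          w p * (∏ i, (-1 * W2helper48.JT.trD 1 (2 * (g + 1)) (j i) p (fun y => (t y : ZMod p))) -
            (-1) ^ r * W2helper48.JW.tgE (g + 1) fun i => (j i : ℕ)) := by
      unfold primeSum
      rw [h3]
      refine sum_congr rfl fun p hp => ?_
      have hpW : p.Prime ∧ p ≠ 2 := by
        rw [← h3] at hp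
        exact ⟨(mem_filter.1 hp).2.1, (mem_filter.1 hp).2.2.1⟩
      have hpr := hpW.1
      have : Fact p.Prime := ⟨hpr⟩
      have h6 : ∀ i, trace (form t) p (j i) = -1 * W2helper48.JT.trD 1 (2 * (g + 1)) (j i) p (fun y => (t y : ZMod p)) := by
        intro i
        have hji : (j i : ℕ) ≠ 0 := by
          have := hj i
          omega
        have h5 : (points (form t) p (j i) : ℝ) = ∑ k ∈ range (1 + 1), ((p : ℝ) ^ (j i : ℕ)) ^ k +
            ∑ v ∈ (j i : ℕ).divisors.biUnion fun d => W2helper48.JT.MM 1 p d,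
              W2helper48.JT.qc (j i : ℕ) (W2helper48.JT.vl (fun ν => (t ν : ZMod p)) v) := by
          unfold points
          rw [dif_pos hpr]
          exact W2helper48.JT.card_D (j i : ℕ) hji t
        rw [sum_range_succ, sum_range_one, pow_zero, pow_one] at h5
        rw [W2helper48.JT.trD_eq 1 (2 * (g + 1)) _ p hpW.2]
        unfold trace W2helper48.JT.TD W2helper48.JT.sD
        rw [h5, mul_one]
        unfold W2helper48.JT.sp
        ring
      show w p * (∏ i, trace (form t) p (j i) - jointMoment g j) = _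
      rw [jointMoment_eq g j hj, prod_congr rfl fun i _ => h6 i]
    rw [h4]
    exact h1
  have h1 := Set.ncard_le_ncard hsub (Finset.finite_toSet _)
  rw [Set.ncard_coe_finset] at h1
  exact le_trans (by exact_mod_cast h1) hE2

end Pool.Agent.Results.MP_4c4ce6_nt.HyperellipticJacobians
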